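import Mathlib

/-!
# FS: the computable Friedman-Stanley jump and ordinal notations (MP_52a9f3_lc)

Definitions and basic facts.
-/

set_option autoImplicit false

namespace Pool.Agent.L0h18.FS

open Nat.Partrec (Code)

/-- the standard numbering of the partial computable functions -/
def φ (e : ℕ) : ℕ →. ℕ := (Denumerable.ofNat Code e).eval

/-- computable reducibility of relations on `ℕ` -/
def Red (E F : ℕ → ℕ → Prop) : Prop := ∃ f : ℕ → ℕ, Computable f ∧ ∀ n n', E n n' ↔ F (f n) (f n')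

/-- the computable FS-jump: `{[φ_e(n)]_E : φ_e(n)↓} = {[φ_e'(n)]_E : φ_e'(n)↓}` -/
def jump (E : ℕ → ℕ → Prop) (e e' : ℕ) : Prop :=
  {c : Set ℕ | ∃ n, ∃ v ∈ φ e n, c = {w | E v w}} = {c : Set ℕ | ∃ n, ∃ v ∈ φ e' n, c = {w | E v w}}

/-- the sum of countably many relations -/
def sum (E : ℕ → ℕ → ℕ → Prop) (p q : ℕ) : Prop :=
  p.unpair.1 = q.unpair.1 ∧ E p.unpair.1 p.unpair.2 q.unpair.2

/-- the relation `<_O` -/
inductive LtO : ℕ → ℕ → Prop
  | succ (a : ℕ) (h : 0 < a) : LtO a (2 ^ a)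
  | lim (e n v : ℕ) (h : v ∈ φ e n) : LtO v (3 * 5 ^ e)
  | trans (a b c : ℕ) (h : LtO a b) (h' : LtO b c) : LtO a c

/-- `Denotes a α`: `a` is a notation (an element of Kleene's `O`) for the ordinal `α` -/
inductive Denotes : ℕ → Ordinal.{0} → Prop
  | zero : Denotes 1 0
  | succ (a : ℕ) (α : Ordinal.{0}) (h : Denotes a α) : Denotes (2 ^ a) (α + 1)
  | lim (e : ℕ) (a : ℕ → ℕ) (α : ℕ → Ordinal.{0}) (ha : ∀ n, a n ∈ φ e n) (hlt : ∀ n, LtO (a n) (a (n + 1)))
      (h : ∀ n, Denotes (a n) (α n)) : Denotes (3 * 5 ^ e) (⨆ n, α n)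

/-- `Iter E a R`: `R` is the iterated jump `E^{+a}` -/
inductive Iter (E : ℕ → ℕ → Prop) : ℕ → (ℕ → ℕ → Prop) → Prop
  | zero : Iter E 1 E
  | succ (b : ℕ) (R : ℕ → ℕ → Prop) (h : Iter E b R) : Iter E (2 ^ b) (jump R)
  | lim (e : ℕ) (a : ℕ → ℕ) (R : ℕ → ℕ → ℕ → Prop) (ha : ∀ n, a n ∈ φ e n) (h : ∀ n, Iter E (a n) (R n)) :
      Iter E (3 * 5 ^ e) (sum R)

/-- the sum of the finite iterates of the jump -/
def Om (E : ℕ → ℕ → Prop) : ℕ → ℕ → Prop := sum fun j => jump^[j] E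

/-! ### basic facts -/

theorem φ_partrec : Partrec₂ φ := by
  have h : Partrec₂ (fun (c : Code) (n : ℕ) => c.eval n) := Nat.Partrec.Code.eval_part
  exact h.comp ((Primrec.ofNat Code).to_comp.comp Computable.fst) Computable.snd

/-- the s-m-n theorem -/
theorem smn {α : Type} [Primcodable α] {f : α → ℕ →. ℕ} (hf : Partrec₂ f) :
    ∃ s : α → ℕ, Computable s ∧ ∀ a n, φ (s a) n = f a n := by
  have h1 : Partrec (fun p : α × ℕ => f p.1 p.2) := hf
  have h2 : Nat.Partrec (fun n : ℕ => (Part.ofOption (Encodable.decode (α := α × ℕ) n)).bind fun a =>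
      (f a.1 a.2).map Encodable.encode) := h1
  obtain ⟨c, hc⟩ := Nat.Partrec.Code.exists_code.1 h2
  refine ⟨fun a => Encodable.encode (Code.curry c (Encodable.encode a)), ?_, ?_⟩
  · refine Computable.encode.comp ?_
    exact (Nat.Partrec.Code.primrec₂_curry.to_comp).comp (Computable.const c) Computable.encode
  · intro a n
    unfold φ
    rw [Denumerable.ofNat_encode, Nat.Partrec.Code.eval_curry, hc]
    have e1 : (Encodable.decode (Nat.pair (Encodable.encode a) n) : Option (α × ℕ)) = some (a, n) :=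
      Encodable.encodek (a, n)
    change ((Part.ofOption (Encodable.decode (α := α × ℕ) (Nat.pair (Encodable.encode a) n))).bind fun a =>
      (f a.1 a.2).map Encodable.encode) = f a n
    rw [e1]
    simp only [Part.coe_some, Part.bind_some]
    have : (Encodable.encode : ℕ → ℕ) = id := by
      funext m
      exact Encodable.encode_nat m
    rw [this, Part.map_id']
    intro m
    rfl

/-- the recursion theorem -/
theorem recursion {f : ℕ → ℕ →. ℕ} (hf : Partrec₂ f) : ∃ e, ∀ n, φ e n = f e n := by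
  have h : Partrec₂ (fun (c : Code) (n : ℕ) => f (Encodable.encode c) n) :=
    hf.comp (Computable.encode.comp Computable.fst) Computable.snd
  obtain ⟨c, hc⟩ := Nat.Partrec.Code.fixed_point₂ h
  refine ⟨Encodable.encode c, fun n => ?_⟩
  unfold φ
  rw [Denumerable.ofNat_encode, hc]

theorem jump_equiv (E : ℕ → ℕ → Prop) : Equivalence (jump E) := by
  refine ⟨fun _ => rfl, fun h => Eq.symm h, fun h h' => Eq.trans h h'⟩

theorem sum_equiv {E : ℕ → ℕ → ℕ → Prop} (h : ∀ n, Equivalence (E n)) : Equivalence (sum E) := by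
  refine ⟨fun p => ⟨rfl, (h _).refl _⟩, ?_, ?_⟩
  · rintro p q ⟨h1, h2⟩
    refine ⟨h1.symm, ?_⟩
    rw [← h1]
    exact (h _).symm h2
  · rintro p q r ⟨h1, h2⟩ ⟨h3, h4⟩
    refine ⟨h1.trans h3, ?_⟩
    rw [← h1] at h4
    exact (h _).trans h2 h4

theorem iter_equiv {E : ℕ → ℕ → Prop} (h : Equivalence E) (j : ℕ) : Equivalence (jump^[j] E) := by
  cases j with
  | zero => exact h
  | succ j => rw [Function.iterate_succ_apply']; exact jump_equiv _

theorem Om_equiv {E : ℕ → ℕ → Prop} (h : Equivalence E) : Equivalence (Om E) :=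
  sum_equiv fun j => iter_equiv h j

/-- the jump of an equivalence relation in terms of elements -/
theorem jump_iff {E : ℕ → ℕ → Prop} (hE : Equivalence E) (e e' : ℕ) : jump E e e' ↔
    (∀ n, ∀ v ∈ φ e n, ∃ m, ∃ w ∈ φ e' m, E v w) ∧ (∀ n, ∀ v ∈ φ e' n, ∃ m, ∃ w ∈ φ e m, E v w) := by
  have key : ∀ v w : ℕ, {x | E v x} = {x | E w x} ↔ E v w := by
    intro v w
    constructor
    · intro h
      have : w ∈ {x | E v x} := by rw [h]; exact hE.refl w
      exact this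
    · intro h
      ext x
      exact ⟨fun hx => hE.trans (hE.symm h) hx, fun hx => hE.trans h hx⟩
  unfold jump
  constructor
  · intro h
    constructor
    · intro n v hv
      have h1 : {x | E v x} ∈ {c : Set ℕ | ∃ n, ∃ v ∈ φ e n, c = {w | E v w}} := ⟨n, v, hv, rfl⟩
      rw [h] at h1
      obtain ⟨m, w, hw, hvw⟩ := h1
      exact ⟨m, w, hw, (key v w).1 hvw⟩
    · intro n v hv
      have h1 : {x | E v x} ∈ {c : Set ℕ | ∃ n, ∃ v ∈ φ e' n, c = {w | E v w}} := ⟨n, v, hv, rfl⟩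
      rw [← h] at h1
      obtain ⟨m, w, hw, hvw⟩ := h1
      exact ⟨m, w, hw, (key v w).1 hvw⟩
  · rintro ⟨h1, h2⟩
    ext c
    constructor
    · rintro ⟨n, v, hv, rfl⟩
      obtain ⟨m, w, hw, hvw⟩ := h1 n v hv
      exact ⟨m, w, hw, (key v w).2 hvw⟩
    · rintro ⟨n, v, hv, rfl⟩
      obtain ⟨m, w, hw, hvw⟩ := h2 n v hv
      exact ⟨m, w, hw, (key v w).2 hvw⟩

theorem Red.refl (E : ℕ → ℕ → Prop) : Red E E := ⟨id, Computable.id, fun _ _ => Iff.rfl⟩

theorem Red.trans {E F G : ℕ → ℕ → Prop} (h : Red E F) (h' : Red F G) : Red E G := by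
  obtain ⟨f, hf, hf'⟩ := h
  obtain ⟨g, hg, hg'⟩ := h'
  exact ⟨fun x => g (f x), hg.comp hf, fun x y => (hf' x y).trans (hg' _ _)⟩

/-! ### the modules -/

/-- Truth data: `d = (c, t₁, t₀)`, `φ_c` is total on pairs and sends `(x, y)` to the `H`-class of `t₁` if `G x y`
and to the `H`-class of `t₀` otherwise. -/
def TD (G H : ℕ → ℕ → Prop) (d : ℕ × ℕ × ℕ) : Prop :=
  ¬ H d.2.1 d.2.2 ∧ ∀ x y, ∃ z ∈ φ d.1 (Nat.pair x y), (G x y → H z d.2.1) ∧ (¬ G x y → H z d.2.2)

/-- the relation `G` is decided by two classes of a finite iterate of the jump -/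
def TC (G : ℕ → ℕ → Prop) : Prop := ∃ k d, TD G (jump^[k] G) d

/-- STEP -/
def S_STEP : Prop := ∃ st : ℕ × ℕ × ℕ → ℕ × ℕ × ℕ, Computable st ∧ ∀ G H d, Equivalence G → Equivalence H →
  TD G H d → TD (jump G) (jump (jump H)) (st d)

/-- SUM -/
def S_SUM : Prop := S_STEP → ∀ G, Equivalence G → TC G → TC (Om G)

/-- MONO -/
def S_MONO : Prop := (∀ R S, Equivalence R → Equivalence S → Red R S → Red (jump R) (jump S)) ∧
  (∀ R, Equivalence R → Red R (jump R)) ∧ (∀ R S, Equivalence R → Equivalence S → Red R S → Red (Om R) (Om S)) ∧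
  (∀ R, Equivalence R → Red R (Om R))

/-- DIAG -/
def S_DIAG : Prop := S_MONO → ∀ F, Equivalence F → TC F → ¬ Red (jump F) F

/-- COL -/
def S_COL : Prop := ∀ (R : ℕ → ℕ → Prop) (S : ℕ → ℕ → ℕ → Prop) (f : ℕ → ℕ), Computable f →
  (∀ x y, jump R x y ↔ sum S (f x) (f y)) → ∀ x y, (f x).unpair.1 = (f y).unpair.1

/-- the program `n` halts within `s` steps -/
def Hlt (n s : ℕ) : Bool := (Code.evaln s (Denumerable.ofNat Code n) 0).isSome

open Ordinal in
/-- NB: the standard notation of `ω²` -/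
def S_NB : Prop := ∃ b : ℕ, Denotes b (ω * ω) ∧ Iter Eq b (sum fun m => Om^[m] Eq)

open Ordinal in
/-- NA: the fast notation of `ω²` -/
def S_NA : Prop := S_MONO → ∃ (a : ℕ) (R : ℕ → ℕ → ℕ → Prop), Denotes a (ω * ω) ∧
  Iter Eq a (sum fun n => jump (R n)) ∧ (∀ n, Equivalence (R n)) ∧
  ∀ n s, Hlt n s = false → Hlt n (s + 1) = true → Red (Om^[s + 1] Eq) (R (n + 1))

end Pool.Agent.L0h18.FS
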