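import Pool.Agent.L0h18.FS.Defs

/-!
# FS: the assembly
-/

set_option autoImplicit false

namespace Pool.Agent.L0h18.FS

open Nat.Partrec (Code)

theorem eq_equiv : Equivalence (Eq : ℕ → ℕ → Prop) := eq_equivalence

theorem om_equiv (m : ℕ) : Equivalence (Om^[m] (Eq : ℕ → ℕ → Prop)) := by
  induction m with
  | zero => exact eq_equiv
  | succ m ih => rw [Function.iterate_succ_apply']; exact Om_equiv ih

/-- equality is decided by two classes of itself -/
theorem tc_eq : TC (Eq : ℕ → ℕ → Prop) := by
  have h : Computable (fun p : ℕ => if p.unpair.1 = p.unpair.2 then 1 else 0) := by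
    refine Primrec.to_comp ?_
    refine Primrec.ite ?_ (Primrec.const 1) (Primrec.const 0)
    exact Primrec.eq.comp (Primrec.fst.comp Primrec.unpair) (Primrec.snd.comp Primrec.unpair)
  have h2 : Partrec₂ (fun (_ : Unit) (p : ℕ) => (Part.some (if p.unpair.1 = p.unpair.2 then 1 else 0) : Part ℕ)) :=
    h.comp Computable.snd
  obtain ⟨s, -, hs⟩ := smn h2
  refine ⟨0, (s (), 1, 0), by simp, fun x y => ⟨if x = y then 1 else 0, ?_, ?_, ?_⟩⟩
  · simp only [hs, Nat.unpair_pair, Part.mem_some_iff]
  · intro h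
    simp only [Function.iterate_zero, id] at *
    simp [h]
  · intro h
    simp only [Function.iterate_zero, id] at *
    simp [h]

theorem tc_om (hST : S_STEP) (hSU : S_SUM) (m : ℕ) : TC (Om^[m] (Eq : ℕ → ℕ → Prop)) := by
  induction m with
  | zero => exact tc_eq
  | succ m ih => rw [Function.iterate_succ_apply']; exact hSU hST _ (om_equiv m) ih

theorem om_mono (hMO : S_MONO) {m n : ℕ} (h : m ≤ n) : Red (Om^[m] (Eq : ℕ → ℕ → Prop)) (Om^[n] Eq) := by
  induction n, h using Nat.le_induction with
  | base => exact Red.refl _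
  | succ n _ ih =>
    rw [Function.iterate_succ_apply']
    exact ih.trans (hMO.2.2.2 _ (om_equiv n))

theorem hlt_mono {n s t : ℕ} (h : s ≤ t) (hs : Hlt n s = true) : Hlt n t = true := by
  unfold Hlt at *
  obtain ⟨x, hx⟩ := Option.isSome_iff_exists.1 hs
  exact Option.isSome_iff_exists.2 ⟨x, Nat.Partrec.Code.evaln_mono h hx⟩

theorem hlt_iff (n : ℕ) : (∃ s, Hlt n s = true) ↔ ((Denumerable.ofNat Code n).eval 0).Dom := by
  unfold Hlt
  constructor
  · rintro ⟨s, hs⟩
    obtain ⟨x, hx⟩ := Option.isSome_iff_exists.1 hs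
    exact Part.dom_iff_mem.2 ⟨x, Nat.Partrec.Code.evaln_sound hx⟩
  · intro h
    obtain ⟨x, hx⟩ := Part.dom_iff_mem.1 h
    obtain ⟨s, hs⟩ := Nat.Partrec.Code.evaln_complete.1 hx
    exact ⟨s, Option.isSome_iff_exists.2 ⟨x, hs⟩⟩

theorem hlt_zero (n : ℕ) : Hlt n 0 = false := by
  unfold Hlt
  rw [Nat.Partrec.Code.evaln]
  rfl

/-- the halting problem cannot be decided with a computable bound on the halting time -/
theorem no_bound (m : ℕ → ℕ) (hm : Computable m)
    (h : ∀ n s, Hlt n s = false → Hlt n (s + 1) = true → s + 1 ≤ m n) : False := by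
  have key : ∀ n, ((Denumerable.ofNat Code n).eval 0).Dom ↔ Hlt n (m n) = true := by
    intro n
    rw [← hlt_iff]
    constructor
    · rintro ⟨s, hs⟩
      classical
      have hex : ∃ s, Hlt n s = true := ⟨s, hs⟩
      have h1 := Nat.find_spec hex
      have h2 : Nat.find hex ≠ 0 := by
        intro h0
        rw [h0, hlt_zero] at h1
        exact Bool.false_ne_true h1
      obtain ⟨t, ht⟩ := Nat.exists_eq_succ_of_ne_zero h2
      have h3 : Hlt n t = false := by
        have := Nat.find_min hex (m := t) (by omega)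
        simpa using this
      rw [ht] at h1
      exact hlt_mono (h n t h3 h1) h1
    · intro hs
      exact ⟨_, hs⟩
  have hc : ComputablePred (fun c : Code => (c.eval 0).Dom) := by
    have h1 : Computable (fun c : Code => Hlt (Encodable.encode c) (m (Encodable.encode c))) := by
      have h2 : Primrec (fun p : (ℕ × Code) × ℕ => (Code.evaln p.1.1 p.1.2 p.2)) := Nat.Partrec.Code.primrec_evaln
      have h3 : Computable (fun c : Code => ((m (Encodable.encode c), c), (0 : ℕ))) :=
        ((hm.comp Computable.encode).pair Computable.id).pair (Computable.const 0)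
      have h4 : Primrec (Option.isSome : Option ℕ → Bool) := Primrec.option_isSome
      refine (h4.to_comp.comp (h2.to_comp.comp h3)).of_eq ?_
      intro c
      simp [Hlt]
    refine ComputablePred.computable_iff.2 ⟨_, h1, ?_⟩
    funext c
    have := key (Encodable.encode c)
    rw [Denumerable.ofNat_encode] at this
    exact propext this
  exact ComputablePred.halting_problem 0 hc

open Ordinal in
theorem final (hMO : S_MONO) (hST : S_STEP) (hSU : S_SUM) (hDI : S_DIAG) (hCO : S_COL) (hNB : S_NB) (hNA : S_NA) :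
    ∃ a b : ℕ, Denotes a (ω * ω) ∧ Denotes b (ω * ω) ∧ ∃ A B, Iter Eq a A ∧ Iter Eq b B ∧ ¬ Red A B := by
  obtain ⟨b, hb, hb'⟩ := hNB
  obtain ⟨a, R, ha, ha', hR, hfast⟩ := hNA hMO
  refine ⟨a, b, ha, hb, _, _, ha', hb', ?_⟩
  rintro ⟨f, hf, hfr⟩
  set F : ℕ → ℕ → ℕ → Prop := fun m => Om^[m] Eq with hF
  have hcol : ∀ n x y, (f (Nat.pair n x)).unpair.1 = (f (Nat.pair n y)).unpair.1 := by
    intro n
    refine hCO (R n) F (fun x => f (Nat.pair n x)) (hf.comp (Primrec₂.natPair.comp (Primrec.const n) Primrec.id).to_comp) ?_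
    intro x y
    rw [← hfr]
    simp [sum]
  have hm : Computable (fun n => (f (Nat.pair (n + 1) 0)).unpair.1) := by
    have h1 : Computable (fun n : ℕ => Nat.pair (n + 1) 0) :=
      (Primrec₂.natPair.comp Primrec.succ (Primrec.const 0)).to_comp
    exact (Primrec.fst.comp Primrec.unpair).to_comp.comp (hf.comp h1)
  have hred : ∀ n, Red (jump (R n)) (F (f (Nat.pair n 0)).unpair.1) := by
    intro n
    refine ⟨fun x => (f (Nat.pair n x)).unpair.2, ?_, ?_⟩
    · exact (Primrec.snd.comp Primrec.unpair).to_comp.comp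
        (hf.comp (Primrec₂.natPair.comp (Primrec.const n) Primrec.id).to_comp)
    · intro x y
      have h1 := hfr (Nat.pair n x) (Nat.pair n y)
      simp only [sum, Nat.unpair_pair, true_and] at h1
      rw [h1, hcol n x 0, hcol n y 0]
      simp
  refine no_bound _ hm fun n s hs hs' => ?_
  by_contra hlt
  rw [not_le] at hlt
  have h1 : Red (F (f (Nat.pair (n + 1) 0)).unpair.1) (F (s + 1)) := om_mono hMO hlt.le
  have h2 : Red (F (f (Nat.pair (n + 1) 0)).unpair.1) (R (n + 1)) := h1.trans (hfast n s hs hs')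
  have h3 := (hMO.1 _ _ (om_equiv _) (hR _) h2).trans (hred (n + 1))
  exact hDI hMO _ (om_equiv _) (tc_om hST hSU _) h3

end Pool.Agent.L0h18.FS
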