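import Pool.Agent.L0h18.FS.Defs

/-!
# FS: notations
-/

set_option autoImplicit false

namespace Pool.Agent.L0h18.FS

open Nat.Partrec (Code)

theorem pow_prim : Primrec₂ (fun a b : ℕ => a ^ b) := Primrec₂.unpaired'.1 Nat.Primrec.pow

theorem iter_comp {F : ℕ → ℕ} (hF : Computable F) : Computable₂ (fun (t y : ℕ) => F^[t] y) := by
  have h : Computable (fun p : ℕ × ℕ => (Nat.rec p.2 (fun _ IH => F IH) p.1 : ℕ)) :=
    Computable.nat_rec (f := fun p : ℕ × ℕ => p.1) (g := fun p : ℕ × ℕ => p.2)
      (h := fun (_ : ℕ × ℕ) (q : ℕ × ℕ) => F q.2) Computable.fst Computable.snd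
      (hF.comp (Computable.snd.comp Computable.snd))
  refine h.of_eq fun p => ?_
  obtain ⟨t, y⟩ := p
  show (Nat.rec y (fun _ IH => F IH) t : ℕ) = F^[t] y
  induction t with
  | zero => rfl
  | succ t ih =>
    rw [Function.iterate_succ_apply', ← ih]

/-- towers -/
def tw (j z : ℕ) : ℕ := (fun x => 2 ^ x)^[j] z

theorem tw_zero (z : ℕ) : tw 0 z = z := rfl

theorem tw_succ (j z : ℕ) : tw (j + 1) z = 2 ^ tw j z := by
  unfold tw
  rw [Function.iterate_succ_apply']

theorem two_pow_comp : Computable (fun x : ℕ => 2 ^ x) := (pow_prim.comp (Primrec.const 2) Primrec.id).to_comp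

theorem tw_comp : Computable₂ tw := iter_comp two_pow_comp

theorem exists_s : ∃ s : ℕ → ℕ, Computable s ∧ ∀ z j, φ (s z) j = Part.some (tw j z) := by
  have h : Partrec₂ (fun z j : ℕ => (Part.some (tw j z) : Part ℕ)) :=
    tw_comp.comp Computable.snd Computable.fst
  exact smn h

/-- the index of the sequence of successors -/
noncomputable def s : ℕ → ℕ := exists_s.choose

theorem s_comp : Computable s := exists_s.choose_spec.1

theorem s_spec (z j : ℕ) : φ (s z) j = Part.some (tw j z) := exists_s.choose_spec.2 z j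

/-- `z + ω` -/
noncomputable def up (z : ℕ) : ℕ := 3 * 5 ^ s z

theorem up_comp : Computable up :=
  (Primrec.nat_mul.comp (Primrec.const 3) (pow_prim.comp (Primrec.const 5) Primrec.id)).to_comp.comp s_comp

/-- `z + ω t` -/
noncomputable def blk (t z : ℕ) : ℕ := up^[t] z

theorem blk_zero (z : ℕ) : blk 0 z = z := rfl

theorem blk_succ (t z : ℕ) : blk (t + 1) z = up (blk t z) := by
  unfold blk
  rw [Function.iterate_succ_apply']

theorem blk_comp : Computable₂ blk := iter_comp up_comp

/-! ### facts on notations -/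

theorem Denotes.pos {a : ℕ} {α : Ordinal.{0}} (h : Denotes a α) : 0 < a := by
  cases h with
  | zero => exact Nat.one_pos
  | succ a α h => exact Nat.two_pow_pos a
  | lim e a α ha hlt h => positivity

theorem denotes_tw {z : ℕ} {α : Ordinal.{0}} (h : Denotes z α) (j : ℕ) : Denotes (tw j z) (α + j) := by
  induction j with
  | zero => simpa [tw_zero] using h
  | succ j ih =>
    rw [tw_succ]
    have := Denotes.succ _ _ ih
    rw [add_assoc] at this
    exact_mod_cast this

theorem lt_tw {z : ℕ} {α : Ordinal.{0}} (h : Denotes z α) (j : ℕ) : LtO (tw j z) (tw (j + 1) z) := by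
  rw [tw_succ]
  exact LtO.succ _ (denotes_tw h j).pos

open Ordinal in
theorem iSup_add_nat (α : Ordinal.{0}) : ⨆ j : ℕ, (α + (j : Ordinal.{0})) = α + ω := by
  apply le_antisymm
  · refine Ordinal.iSup_le fun j => ?_
    exact add_le_add_right (Ordinal.natCast_lt_omega0 j).le α
  · refine (isNormal_add_right α).le_iff_forall_le isSuccLimit_omega0 |>.2 ?_
    intro b hb
    obtain ⟨n, rfl⟩ := lt_omega0.1 hb
    exact Ordinal.le_iSup (fun j : ℕ => α + (j : Ordinal.{0})) n

open Ordinal in
theorem denotes_up {z : ℕ} {α : Ordinal.{0}} (h : Denotes z α) : Denotes (up z) (α + ω) := by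
  rw [← iSup_add_nat]
  unfold up
  refine Denotes.lim (s z) (fun j => tw j z) (fun j => α + j) (fun n => ?_) (fun n => lt_tw h n)
    (fun n => denotes_tw h n)
  rw [s_spec]
  exact Part.mem_some _

open Ordinal in
theorem denotes_blk {z : ℕ} {α : Ordinal.{0}} (h : Denotes z α) (t : ℕ) : Denotes (blk t z) (α + ω * t) := by
  induction t with
  | zero => simpa [blk_zero] using h
  | succ t ih =>
    rw [blk_succ]
    have := denotes_up ih
    rw [add_assoc] at this
    convert this using 2
    push_cast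
    rw [mul_add, mul_one]

theorem lt_up (z : ℕ) : LtO z (up z) := by
  refine LtO.lim (s z) 0 z ?_
  rw [s_spec]
  exact Part.mem_some _

theorem lt_blk (t z : ℕ) : LtO z (blk (t + 1) z) := by
  induction t with
  | zero => rw [blk_succ, blk_zero]; exact lt_up z
  | succ t ih => rw [blk_succ]; exact LtO.trans _ _ _ ih (lt_up _)

/-! ### facts on the iterates -/

theorem iter_tw {z : ℕ} {R : ℕ → ℕ → Prop} (h : Iter Eq z R) (j : ℕ) : Iter Eq (tw j z) (jump^[j] R) := by
  induction j with
  | zero => exact h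
  | succ j ih =>
    rw [tw_succ, Function.iterate_succ_apply']
    exact Iter.succ _ _ ih

theorem iter_up {z : ℕ} {R : ℕ → ℕ → Prop} (h : Iter Eq z R) : Iter Eq (up z) (Om R) := by
  unfold up Om
  refine Iter.lim (s z) (fun j => tw j z) _ (fun n => ?_) (fun n => iter_tw h n)
  rw [s_spec]
  exact Part.mem_some _

theorem iter_blk {z : ℕ} {R : ℕ → ℕ → Prop} (h : Iter Eq z R) (t : ℕ) : Iter Eq (blk t z) (Om^[t] R) := by
  induction t with
  | zero => exact h
  | succ t ih =>
    rw [blk_succ, Function.iterate_succ_apply']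
    exact iter_up ih

/-! ### the fast sequence -/

/-- the program `n` halts at step `j + 1` -/
def ev (n j : ℕ) : Bool := !Hlt n j && Hlt n (j + 1)

theorem hlt_comp : Computable₂ Hlt := by
  have h2 : Primrec (fun p : (ℕ × Code) × ℕ => (Code.evaln p.1.1 p.1.2 p.2)) := Nat.Partrec.Code.primrec_evaln
  have h3 : Primrec (fun p : ℕ × ℕ => ((p.2, (Denumerable.ofNat Code p.1 : Code)), (0 : ℕ))) :=
    (Primrec.snd.pair ((Primrec.ofNat Code).comp Primrec.fst)).pair (Primrec.const 0)
  have h4 : Primrec (Option.isSome : Option ℕ → Bool) := Primrec.option_isSome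
  exact ((h4.comp (h2.comp h3)).to_comp)

theorem ev_comp : Computable₂ ev := by
  have h1 : Computable (fun p : ℕ × ℕ => Hlt p.1 p.2) := hlt_comp
  have h2 : Computable (fun p : ℕ × ℕ => Hlt p.1 (p.2 + 1)) :=
    hlt_comp.comp Computable.fst (Computable.succ.comp Computable.snd)
  have h3 : Computable (fun p : ℕ × ℕ => !Hlt p.1 p.2) := Primrec.not.to_comp.comp h1
  exact (Primrec.and.to_comp.comp h3 h2)

/-- the fundamental sequence -/
noncomputable def v (x n : ℕ) : ℕ → ℕ
  | 0 => x
  | j + 1 => bif ev n j then blk (j + 1) (2 ^ v x n j) else 2 ^ v x n j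

theorem v_comp : Computable (fun p : (ℕ × ℕ) × ℕ => v p.1.2 p.1.1 p.2) := by
  have hst : Computable (fun q : ((ℕ × ℕ) × ℕ) × (ℕ × ℕ) =>
      bif ev q.1.1.1 q.2.1 then blk (q.2.1 + 1) (2 ^ q.2.2) else 2 ^ q.2.2) := by
    have e1 : Computable (fun q : ((ℕ × ℕ) × ℕ) × (ℕ × ℕ) => ev q.1.1.1 q.2.1) :=
      ev_comp.comp (Computable.fst.comp (Computable.fst.comp Computable.fst))
        (Computable.fst.comp Computable.snd)
    have e2 : Computable (fun q : ((ℕ × ℕ) × ℕ) × (ℕ × ℕ) => 2 ^ q.2.2) :=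
      two_pow_comp.comp (Computable.snd.comp Computable.snd)
    have e3 : Computable (fun q : ((ℕ × ℕ) × ℕ) × (ℕ × ℕ) => blk (q.2.1 + 1) (2 ^ q.2.2)) :=
      blk_comp.comp (Computable.succ.comp (Computable.fst.comp Computable.snd)) e2
    exact Computable.cond e1 e3 e2
  have h : Computable (fun p : (ℕ × ℕ) × ℕ => (Nat.rec p.1.2
      (fun j IH => bif ev p.1.1 j then blk (j + 1) (2 ^ IH) else 2 ^ IH) p.2 : ℕ)) :=
    Computable.nat_rec (f := fun p : (ℕ × ℕ) × ℕ => p.2) (g := fun p : (ℕ × ℕ) × ℕ => p.1.2)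
      (h := fun (p : (ℕ × ℕ) × ℕ) (q : ℕ × ℕ) => bif ev p.1.1 q.1 then blk (q.1 + 1) (2 ^ q.2) else 2 ^ q.2)
      Computable.snd (Computable.snd.comp Computable.fst) hst
  refine h.of_eq fun p => ?_
  obtain ⟨⟨n, x⟩, j⟩ := p
  show (Nat.rec x (fun j IH => bif ev n j then blk (j + 1) (2 ^ IH) else 2 ^ IH) j : ℕ) = v x n j
  induction j with
  | zero => rfl
  | succ j ih =>
    rw [v, ← ih]

theorem exists_sD : ∃ sD : ℕ × ℕ → ℕ, Computable sD ∧ ∀ p j, φ (sD p) j = Part.some (v p.2 p.1 j) := by
  have h : Partrec₂ (fun (p : ℕ × ℕ) (j : ℕ) => (Part.some (v p.2 p.1 j) : Part ℕ)) := v_comp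
  exact smn h

noncomputable def sD : ℕ × ℕ → ℕ := exists_sD.choose

theorem sD_comp : Computable sD := exists_sD.choose_spec.1

theorem sD_spec (n x j : ℕ) : φ (sD (n, x)) j = Part.some (v x n j) := exists_sD.choose_spec.2 (n, x) j

/-- the limit -/
noncomputable def D (n x : ℕ) : ℕ := 3 * 5 ^ sD (n, x)

theorem D_comp : Computable₂ D :=
  (Primrec.nat_mul.comp (Primrec.const 3) (pow_prim.comp (Primrec.const 5) Primrec.id)).to_comp.comp sD_comp

/-- the sequence -/
noncomputable def aa : ℕ → ℕ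
  | 0 => 1
  | n + 1 => D n (2 ^ aa n)

theorem aa_comp : Computable aa := by
  have hst : Computable (fun q : ℕ × (ℕ × ℕ) => D q.2.1 (2 ^ q.2.2)) :=
    D_comp.comp (Computable.fst.comp Computable.snd) (two_pow_comp.comp (Computable.snd.comp Computable.snd))
  have h : Computable (fun n : ℕ => (Nat.rec 1 (fun j IH => D j (2 ^ IH)) n : ℕ)) :=
    Computable.nat_rec (f := fun n : ℕ => n) (g := fun _ : ℕ => 1)
      (h := fun (_ : ℕ) (q : ℕ × ℕ) => D q.1 (2 ^ q.2)) Computable.id (Computable.const 1) hst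
  refine h.of_eq fun n => ?_
  induction n with
  | zero => rfl
  | succ n ih => rw [aa, ← ih]

theorem exists_ea : ∃ e : ℕ, ∀ n, φ e n = Part.some (2 ^ aa n) := by
  have h : Partrec₂ (fun (_ : Unit) (n : ℕ) => (Part.some (2 ^ aa n) : Part ℕ)) :=
    (two_pow_comp.comp (aa_comp.comp Computable.snd) : Computable fun p : Unit × ℕ => 2 ^ aa p.2)
  obtain ⟨t, -, ht⟩ := smn h
  exact ⟨t (), ht ()⟩

/-! ### the iterates along the fast sequence -/

/-- the relations of the fundamental sequence -/
def V (R : ℕ → ℕ → Prop) (n : ℕ) : ℕ → ℕ → ℕ → Prop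
  | 0 => R
  | j + 1 => bif ev n j then Om^[j + 1] (jump (V R n j)) else jump (V R n j)

theorem iter_v {x : ℕ} {R : ℕ → ℕ → Prop} (h : Iter Eq x R) (n j : ℕ) : Iter Eq (v x n j) (V R n j) := by
  induction j with
  | zero => exact h
  | succ j ih =>
    rw [v, V]
    cases ev n j with
    | true => exact iter_blk (Iter.succ _ _ ih) (j + 1)
    | false => exact Iter.succ _ _ ih

theorem omi_equiv {R : ℕ → ℕ → Prop} (h : Equivalence R) (j : ℕ) : Equivalence (Om^[j] R) := by
  induction j with
  | zero => exact h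
  | succ j ih => rw [Function.iterate_succ_apply']; exact Om_equiv ih

theorem V_equiv {R : ℕ → ℕ → Prop} (h : Equivalence R) (n j : ℕ) : Equivalence (V R n j) := by
  induction j with
  | zero => exact h
  | succ j ih =>
    rw [V]
    cases ev n j with
    | true => exact omi_equiv (jump_equiv _) _
    | false => exact jump_equiv _

/-- the relations of the fast sequence -/
def RR : ℕ → ℕ → ℕ → Prop
  | 0 => Eq
  | n + 1 => sum (V (jump (RR n)) n)

theorem RR_equiv (n : ℕ) : Equivalence (RR n) := by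
  cases n with
  | zero => exact eq_equivalence
  | succ n => rw [RR]; exact sum_equiv fun j => V_equiv (jump_equiv _) n j

theorem iter_aa (n : ℕ) : Iter Eq (aa n) (RR n) := by
  induction n with
  | zero => exact Iter.zero
  | succ n ih =>
    rw [aa, RR]
    unfold D
    refine Iter.lim _ (fun j => v (2 ^ aa n) n j) _ (fun j => ?_) (fun j => iter_v (Iter.succ _ _ ih) n j)
    rw [sD_spec]
    exact Part.mem_some _

section red

variable (hM : S_MONO)
include hM

theorem omi_ge {R : ℕ → ℕ → Prop} (h : Equivalence R) (j : ℕ) : Red R (Om^[j] R) := by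
  induction j with
  | zero => exact Red.refl _
  | succ j ih =>
    rw [Function.iterate_succ_apply']
    exact ih.trans (hM.2.2.2 _ (omi_equiv h j))

theorem omi_mono {R S : ℕ → ℕ → Prop} (h : Equivalence R) (h' : Equivalence S) (hr : Red R S) (j : ℕ) :
    Red (Om^[j] R) (Om^[j] S) := by
  induction j with
  | zero => exact hr
  | succ j ih =>
    rw [Function.iterate_succ_apply', Function.iterate_succ_apply']
    exact hM.2.2.1 _ _ (omi_equiv h j) (omi_equiv h' j) ih

theorem V_ge {R : ℕ → ℕ → Prop} (h : Equivalence R) (n j : ℕ) : Red R (V R n j) := by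
  induction j with
  | zero => exact Red.refl _
  | succ j ih =>
    rw [V]
    have h1 := ih.trans (hM.2.1 _ (V_equiv h n j))
    cases ev n j with
    | true => exact h1.trans (omi_ge hM (jump_equiv _) (j + 1))
    | false => exact h1

omit hM in
theorem sum_ge (S : ℕ → ℕ → ℕ → Prop) (j : ℕ) : Red (S j) (sum S) := by
  refine ⟨fun x => Nat.pair j x, (Primrec₂.natPair.comp (Primrec.const j) Primrec.id).to_comp, fun x y => ?_⟩
  simp [sum]

theorem eq_le_RR (n : ℕ) : Red Eq (RR n) := by
  induction n with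
  | zero => exact Red.refl _
  | succ n ih =>
    rw [RR]
    have h1 : Red (RR n) (jump (RR n)) := hM.2.1 _ (RR_equiv n)
    have h2 : Red (jump (RR n)) (sum (V (jump (RR n)) n)) := sum_ge (V (jump (RR n)) n) 0
    exact (ih.trans h1).trans h2

theorem fast (n s : ℕ) (h : Hlt n s = false) (h' : Hlt n (s + 1) = true) : Red (Om^[s + 1] Eq) (RR (n + 1)) := by
  have hev : ev n s = true := by
    unfold ev
    rw [h, h']
    rfl
  have h1 : V (jump (RR n)) n (s + 1) = Om^[s + 1] (jump (V (jump (RR n)) n s)) := by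
    rw [V, hev]
    rfl
  have h2 : Red (V (jump (RR n)) n (s + 1)) (RR (n + 1)) := by
    rw [RR]
    exact sum_ge _ (s + 1)
  rw [h1] at h2
  refine Red.trans ?_ h2
  refine omi_mono hM eq_equivalence (jump_equiv _) ?_ _
  have h3 : Red Eq (jump (RR n)) := (eq_le_RR hM n).trans (hM.2.1 _ (RR_equiv n))
  exact (h3.trans (V_ge hM (jump_equiv _) n s)).trans (hM.2.1 _ (V_equiv (jump_equiv _) n s))

end red

end Pool.Agent.L0h18.FS
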