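import Pool.Agent.L0h18.FS.NA

/-!
# FS: ordinals
-/

set_option autoImplicit false

namespace Pool.Agent.L0h18.FS

open Ordinal

/-- the ordinals of the fundamental sequence -/
noncomputable def W (α : Ordinal.{0}) (n : ℕ) : ℕ → Ordinal.{0}
  | 0 => α
  | j + 1 => bif ev n j then W α n j + 1 + ω * ((j + 1 : ℕ) : Ordinal.{0}) else W α n j + 1

theorem denotes_v {x : ℕ} {α : Ordinal.{0}} (h : Denotes x α) (n j : ℕ) : Denotes (v x n j) (W α n j) := by
  induction j with
  | zero => exact h
  | succ j ih =>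
    rw [v, W]
    cases ev n j with
    | true => exact denotes_blk (Denotes.succ _ _ ih) (j + 1)
    | false => exact Denotes.succ _ _ ih

theorem lt_v {x : ℕ} {α : Ordinal.{0}} (h : Denotes x α) (n j : ℕ) : LtO (v x n j) (v x n (j + 1)) := by
  rw [v]
  have h1 := LtO.succ _ (denotes_v h n j).pos
  cases ev n j with
  | true => exact LtO.trans _ _ _ h1 (lt_blk j _)
  | false => exact h1

/-- the ordinals of the fast sequence -/
noncomputable def AA : ℕ → Ordinal.{0}
  | 0 => 0
  | n + 1 => ⨆ j, W (AA n + 1) n j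

theorem denotes_aa (n : ℕ) : Denotes (aa n) (AA n) := by
  induction n with
  | zero => exact Denotes.zero
  | succ n ih =>
    rw [aa, AA]
    unfold D
    refine Denotes.lim _ (fun j => v (2 ^ aa n) n j) _ (fun j => ?_) (fun j => lt_v (Denotes.succ _ _ ih) n j)
      (fun j => denotes_v (Denotes.succ _ _ ih) n j)
    rw [sD_spec]
    exact Part.mem_some _

theorem W_ge (α : Ordinal.{0}) (n j : ℕ) : α + j ≤ W α n j := by
  induction j with
  | zero => simp [W]
  | succ j ih =>
    have h1 : α + ((j + 1 : ℕ) : Ordinal.{0}) = α + j + 1 := by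
      push_cast
      rw [add_assoc]
    have h2 : α + j + 1 ≤ W α n j + 1 := add_le_add_left ih 1
    rw [h1, W]
    cases ev n j with
    | true => exact h2.trans le_self_add
    | false => exact h2

theorem AA_ge (n : ℕ) : ω * n ≤ AA n := by
  induction n with
  | zero => simp [AA]
  | succ n ih =>
    have h1 : ω * ((n + 1 : ℕ) : Ordinal.{0}) = ω * n + ω := by
      push_cast
      rw [mul_add, mul_one]
    rw [h1, AA, ← iSup_add_nat]
    refine Ordinal.iSup_le fun j => ?_
    have h2 : ω * n + (j : Ordinal.{0}) ≤ AA n + 1 + j :=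
      add_le_add_left (ih.trans le_self_add) _
    exact (h2.trans (W_ge _ n j)).trans (Ordinal.le_iSup (fun j => W (AA n + 1) n j) j)

theorem ev_unique {n i j : ℕ} (h : ev n i = true) (hij : i < j) : ev n j = false := by
  unfold ev at *
  rw [Bool.and_eq_true] at h
  have h1 : Hlt n j = true := by
    obtain ⟨x, hx⟩ := Option.isSome_iff_exists.1 h.2
    exact Option.isSome_iff_exists.2 ⟨x, Nat.Partrec.Code.evaln_mono hij hx⟩
  simp [h1]

/-- bounded by a multiple of `ω` -/
def Sm (α : Ordinal.{0}) : Prop := ∃ c : ℕ, α ≤ ω * c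

theorem Sm.add_omega {α : Ordinal.{0}} (h : Sm α) (t : ℕ) : Sm (α + ω * t) := by
  obtain ⟨c, hc⟩ := h
  refine ⟨c + t, ?_⟩
  push_cast
  rw [mul_add]
  exact add_le_add_left hc _

theorem Sm.mono {α β : Ordinal.{0}} (h : Sm β) (hab : α ≤ β) : Sm α := by
  obtain ⟨c, hc⟩ := h
  exact ⟨c, hab.trans hc⟩

theorem Sm.succ {α : Ordinal.{0}} (h : Sm α) : Sm (α + 1) := by
  refine (h.add_omega 1).mono ?_
  rw [Nat.cast_one, mul_one]
  exact add_le_add_right one_lt_omega0.le α

theorem W_tail {α : Ordinal.{0}} {n J : ℕ} (h : ∀ j, J ≤ j → ev n j = false) (i : ℕ) :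
    W α n (J + i) = W α n J + i := by
  induction i with
  | zero => simp
  | succ i ih =>
    rw [← add_assoc, W, h (J + i) (by omega), ih]
    show W α n J + (i : Ordinal.{0}) + 1 = _
    push_cast
    rw [add_assoc]

theorem W_sm {α : Ordinal.{0}} (hα : Sm α) (n j : ℕ) : Sm (W α n j) := by
  induction j with
  | zero => exact hα
  | succ j ih =>
    rw [W]
    cases ev n j with
    | true => exact ih.succ.add_omega _
    | false => exact ih.succ

theorem W_mono (α : Ordinal.{0}) (n : ℕ) : Monotone (W α n) := by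
  refine monotone_nat_of_le_succ fun j => ?_
  rw [W]
  have h : W α n j ≤ W α n j + 1 := le_self_add
  cases ev n j with
  | true => exact h.trans le_self_add
  | false => exact h

theorem sup_sm {α : Ordinal.{0}} (hα : Sm α) (n : ℕ) : Sm (⨆ j, W α n j) := by
  obtain ⟨J, hJ⟩ : ∃ J, ∀ j, J ≤ j → ev n j = false := by
    by_cases h : ∃ i, ev n i = true
    · obtain ⟨i, hi⟩ := h
      exact ⟨i + 1, fun j hj => ev_unique hi hj⟩
    · push Not at h
      exact ⟨0, fun j _ => by simpa using h j⟩
  refine ((W_sm hα n J).add_omega 1).mono ?_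
  refine Ordinal.iSup_le fun j => ?_
  rw [Nat.cast_one, mul_one]
  rcases le_total J j with h | h
  · obtain ⟨i, rfl⟩ := Nat.exists_eq_add_of_le h
    rw [W_tail hJ]
    exact add_le_add_right (natCast_lt_omega0 i).le _
  · exact (W_mono α n h).trans le_self_add

theorem AA_sm (n : ℕ) : Sm (AA n) := by
  induction n with
  | zero => exact ⟨0, by simp [AA]⟩
  | succ n ih => rw [AA]; exact sup_sm ih.succ n

theorem sup_AA : ⨆ n, (AA n + 1) = ω * ω := by
  apply le_antisymm
  · refine Ordinal.iSup_le fun n => ?_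
    obtain ⟨c, hc⟩ := (AA_sm n).succ
    exact hc.trans (mul_le_mul_right (natCast_lt_omega0 c).le ω)
  · refine (isNormal_mul_right omega0_pos).le_iff_forall_le isSuccLimit_omega0 |>.2 ?_
    intro b hb
    obtain ⟨n, rfl⟩ := lt_omega0.1 hb
    exact ((AA_ge n).trans le_self_add).trans (Ordinal.le_iSup (fun n => AA n + 1) n)

theorem na : S_NA := by
  intro hM
  obtain ⟨e, he⟩ := exists_ea
  refine ⟨3 * 5 ^ e, RR, ?_, ?_, RR_equiv, fun n s h h' => fast hM n s h h'⟩
  · rw [← sup_AA]
    refine Denotes.lim e (fun n => 2 ^ aa n) _ (fun n => ?_) (fun n => ?_) (fun n => Denotes.succ _ _ (denotes_aa n))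
    · rw [he]
      exact Part.mem_some _
    · have h1 : LtO (2 ^ aa n) (aa (n + 1)) := by
        rw [aa]
        refine LtO.lim _ 0 _ ?_
        rw [sD_spec]
        exact Part.mem_some _
      exact LtO.trans _ _ _ h1 (LtO.succ _ (denotes_aa (n + 1)).pos)
  · refine Iter.lim e (fun n => 2 ^ aa n) _ (fun n => ?_) (fun n => Iter.succ _ _ (iter_aa n))
    rw [he]
    exact Part.mem_some _

/-! ### the standard notation -/

theorem nb : S_NB := by
  have h : Partrec₂ (fun (_ : Unit) (n : ℕ) => (Part.some (blk n 1) : Part ℕ)) :=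
    (blk_comp.comp Computable.snd (Computable.const 1) : Computable fun p : Unit × ℕ => blk p.2 1)
  obtain ⟨t, -, ht⟩ := smn h
  refine ⟨3 * 5 ^ t (), ?_, ?_⟩
  · have hs : ⨆ n : ℕ, (0 + ω * (n : Ordinal.{0})) = ω * ω := by
      apply le_antisymm
      · refine Ordinal.iSup_le fun n => ?_
        rw [zero_add]
        exact mul_le_mul_right (natCast_lt_omega0 n).le ω
      · refine (isNormal_mul_right omega0_pos).le_iff_forall_le isSuccLimit_omega0 |>.2 ?_
        intro b hb
        obtain ⟨n, rfl⟩ := lt_omega0.1 hb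
        have := Ordinal.le_iSup (fun n : ℕ => 0 + ω * (n : Ordinal.{0})) n
        simpa using this
    rw [← hs]
    refine Denotes.lim (t ()) (fun n => blk n 1) _ (fun n => ?_) (fun n => ?_) (fun n => denotes_blk Denotes.zero n)
    · rw [ht]
      exact Part.mem_some _
    · rw [blk_succ]
      exact lt_up _
  · refine Iter.lim (t ()) (fun n => blk n 1) _ (fun n => ?_) (fun n => iter_blk Iter.zero n)
    rw [ht]
    exact Part.mem_some _

end Pool.Agent.L0h18.FS
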